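import Pool.Agent.MWN.StmtsA

namespace Pool.Agent.MWN.H97

open Pool.Agent.Helper14_MV Pool.Agent.Helper2_MV Pool.Agent.MVO Pool.Agent.MWL Pool.Agent.MWS
  Pool.Agent.MWF

theorem sub_append (d e : ℕ) (l1 l2 : List ℕ) :
    List.Sublist [d, e] (l1 ++ l2) ↔
      List.Sublist [d, e] l1 ∨ List.Sublist [d, e] l2 ∨ (d ∈ l1 ∧ e ∈ l2) := by
  rw [List.sublist_append_iff]
  constructor
  · rintro ⟨a, b, hab, ha, hb⟩
    rcases a with _ | ⟨x, a⟩
    · right; left
      rw [List.nil_append] at hab
      rw [hab]
      exact hb
    · rcases a with _ | ⟨y, a⟩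
      · right; right
        simp only [List.cons_append, List.nil_append, List.cons.injEq] at hab
        obtain ⟨rfl, rfl⟩ := hab
        exact ⟨List.singleton_sublist.1 ha, List.singleton_sublist.1 hb⟩
      · left
        have h1 : a = [] ∧ b = [] := by
          have h2 := congrArg List.length hab
          simp only [List.length_cons, List.length_nil, List.length_append] at h2
          constructor
          · exact List.length_eq_zero_iff.1 (by omega)
          · exact List.length_eq_zero_iff.1 (by omega)
        obtain ⟨rfl, rfl⟩ := h1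
        rw [List.append_nil] at hab
        rw [hab]
        exact ha
  · rintro (h | h | ⟨h, h'⟩)
    · exact ⟨[d, e], [], by simp, h, List.nil_sublist _⟩
    · exact ⟨[], [d, e], by simp, List.nil_sublist _, h⟩
    · exact ⟨[d], [e], by simp, List.singleton_sublist.2 h, List.singleton_sublist.2 h'⟩

theorem nsb : NsbStmt := by
  intro T h h' d e hT
  induction T with
  | nil => simp
  | cons x T ih =>
    have ih' := ih fun y hy => hT y (List.mem_cons_of_mem _ hy)
    have h1 := hT x (List.mem_cons_self ..)
    have h2 : e ∈ T.flatMap h ↔ e ∈ T.flatMap h' := by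
      rw [List.mem_flatMap, List.mem_flatMap]
      exact exists_congr fun y => and_congr_right fun hy =>
        (hT y (List.mem_cons_of_mem _ hy)).1.2
    rw [List.flatMap_cons, List.flatMap_cons, sub_append, sub_append, h1.1.1, h2]
    exact or_congr h1.2 (or_congr ih' Iff.rfl)

end Pool.Agent.MWN.H97
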